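import Pool.Agent.H94.SF.Defs
import Pool.Agent.H63.SFC.Main
import Pool.Agent.H68.SC.JPos
import Pool.Agent.H21.SN.Link

/-!
# Numerical facts (block B1).  `K_tab`, `jl_ne_low`, `djl_ell_ne`, `D_gt`, `D_lt`: helper21.
The rest follows (helper63's sums of Legendre coefficients, helper68's positivity).
-/

set_option autoImplicit false

noncomputable section

namespace SF

open Pool.Agent.H68.SC (jl djl)
open Pool.Agent.H27.Leg (c)
open Finset

/-! ### helper21 -/

theorem jl_ne_low (j : ℕ) (hj : j ≤ 605) (h : j ≠ 239) : jl (2 * j) rho ≠ 0 :=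
  SN.jl_ne (2 * j) (even_two_mul j) (by omega)

/-- the logarithmic derivatives -/
theorem K_tab (j : ℕ) (hj : j ≤ 605) (h : j ≠ 239) :
    |djl (2 * j) rho / jl (2 * j) rho| ≤ (SFC.Kt j : ℝ) / 1000 := by
  rw [SN.logd (2 * j) (even_two_mul j) (by omega) (by omega)]
  exact SN.K_Kt j hj h

/-- mode `l` is almost degenerate -/
theorem djl_ell_ne : djl ell rho ≠ 0 := SN.djl_478_ne

theorem D_gt : -(80414 / 10 ^ 12 : ℝ) < jl ell rho / djl ell rho := SN.D_gt

theorem D_lt : jl ell rho / djl ell rho < -(80412 / 10 ^ 12 : ℝ) := SN.D_lt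

/-! ### consequences -/

/-- the coefficient of the second order term of mode `k` (divided by `ρ² j_k(ρ)`) -/
def Kq (k : ℕ) : ℝ := djl k rho / jl k rho / 2 + 1 / rho

theorem Kt_le (j : ℕ) : SFC.Kt j ≤ 611156 := by
  unfold SFC.Kt
  have h : ∀ x ∈ SFC.KtL, x ≤ 611156 := by decide +kernel
  rw [List.getD_eq_getElem?_getD]
  cases hj : SFC.KtL[j]? with
  | none => simp
  | some x =>
    simp only [Option.getD_some]
    exact h x (List.mem_of_getElem? hj)

theorem K_le (k : ℕ) (hk : Even k) (h : k ≠ ell) (h2 : k ≤ 1210) :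
    |djl k rho| ≤ 612 * |jl k rho| := by
  obtain ⟨j, rfl⟩ := hk.two_dvd
  have h3 : j ≠ 239 := by
    rintro rfl
    exact h rfl
  have h4 := K_tab j (by omega) h3
  have h5 : (SFC.Kt j : ℝ) ≤ 611156 := by exact_mod_cast Kt_le j
  have h6 := jl_ne_low j (by omega) h3
  rw [abs_div, div_le_iff₀ (abs_pos.2 h6)] at h4
  refine h4.trans ?_
  gcongr
  linarith

/-- all even modes but `l` are nondegenerate -/
theorem jl_ne (k : ℕ) (hk : Even k) (h : k ≠ ell) : jl k rho ≠ 0 := by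
  obtain ⟨j, rfl⟩ := hk.two_dvd
  by_cases hj : j ≤ 605
  · refine jl_ne_low j hj ?_
    rintro rfl
    exact h rfl
  · have h1 : (606 : ℝ) ≤ j := by
      have : 606 ≤ j := by omega
      exact_mod_cast this
    have h2 := rho_lt'
    have h3 := rho_gt'
    refine (Pool.Agent.H68.SC.jl_pos_sq (2 * j) (by linarith) ?_).ne'
    push_cast
    nlinarith

theorem djl_zero : djl 0 rho = 0 := by
  rw [Pool.Agent.H36.SC.djl_zero', Pool.Agent.H36.SC.jl_one_rho SN.rho_pos SN.sin_rho, neg_zero]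

theorem kb : SFC.KB fun k => djl k rho / jl k rho := by
  intro k hk he h
  obtain ⟨j, rfl⟩ := he.two_dvd
  have := K_tab j (by omega) (by omega)
  simpa using this

/-- `g = .00153626869` -/
theorem g_gt : (15362 / 10 ^ 7 : ℝ) < c ell ell ell := by
  have := SFC.g_gt
  unfold ell
  norm_num at this ⊢
  linarith

theorem g_lt : c ell ell ell < (15363 / 10 ^ 7 : ℝ) := by
  have := SFC.g_lt
  unfold ell
  norm_num at this ⊢
  linarith

theorem abs_Kq_le (k : ℕ) : |Kq k| ≤ |djl k rho / jl k rho| / 2 + 1 / 1211 := by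
  have h1 := rho_gt'
  have h2 : |1 / rho| ≤ 1 / 1211 := by
    rw [abs_of_pos (by positivity)]
    exact one_div_le_one_div_of_le (by norm_num) h1.le
  unfold Kq
  refine (abs_add_le _ _).trans ?_
  rw [abs_div, abs_two]
  linarith

/-- `S3 = .0051606` -/
theorem S3_le : ∑ k ∈ (range 957).erase 478, c 478 478 k * c 478 k 478 * |Kq k| ≤
    51607 / 10 ^ 7 := by
  have h := SFC.sum_c_c_K kb
  refine le_trans (sum_le_sum fun k _ => ?_) (h.trans (by norm_num))
  refine mul_le_mul_of_nonneg_left (abs_Kq_le k) ?_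
  exact mul_nonneg (Pool.Agent.H27.Leg.c_nonneg _ _ _) (Pool.Agent.H27.Leg.c_nonneg _ _ _)

/-- `S2 = 2.2256` -/
theorem S2_le : ∑ k ∈ (range 957).erase 478, c 478 478 k * |Kq k| ≤ 23 / 10 := by
  have h := SFC.sum_c_K kb
  have h2 : ∑ k ∈ (range 957).erase 478, c 478 478 k ≤ 1 := by
    rw [← Pool.Agent.H27.Leg.c_sum 478 478 957 (by norm_num)]
    exact sum_le_sum_of_subset_of_nonneg (erase_subset _ _)
      (fun k _ _ => Pool.Agent.H27.Leg.c_nonneg _ _ _)
  have h3 : ∑ k ∈ (range 957).erase 478, c 478 478 k * |Kq k| ≤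
      ∑ k ∈ (range 957).erase 478, (c 478 478 k * |djl k rho / jl k rho| / 2 +
        c 478 478 k * (1 / 1211)) := by
    refine sum_le_sum fun k _ => ?_
    have h4 := mul_le_mul_of_nonneg_left (abs_Kq_le k) (Pool.Agent.H27.Leg.c_nonneg 478 478 k)
    linarith
  rw [sum_add_distrib, ← sum_div, ← sum_mul] at h3
  refine h3.trans ?_
  have h5 : ∑ k ∈ (range 957).erase 478, c 478 478 k * |djl k rho / jl k rho| ≤ 44518 / 10 ^ 4 :=
    h.trans (by norm_num)
  linarith

theorem c_back_le (k : ℕ) (hk : 1 ≤ k) : c 478 k 478 ≤ 251 / 1000 := by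
  have := SFC.c_lk_le hk
  norm_num at this ⊢
  linarith

theorem c_back_mul_le (k : ℕ) (hk : 1 ≤ k) (h : k ≠ 478) :
    c 478 k 478 * (1 + |djl k rho / jl k rho|) ≤ 13223 / 10 ^ 4 := by
  have := SFC.c_lk_mul_le kb hk h
  norm_num at this ⊢
  exact this

/-- the product of the small divisor and the feedback coefficient -/
theorem back_le (k : ℕ) (h : k ≠ ell) : |Kq k| * c ell k ell ≤ 67 / 100 := by
  show |Kq k| * c 478 k 478 ≤ 67 / 100
  have h0 : 0 ≤ c 478 k 478 := Pool.Agent.H27.Leg.c_nonneg _ _ _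
  have h1 := mul_le_mul_of_nonneg_right (abs_Kq_le k) h0
  refine h1.trans ?_
  rcases Nat.eq_zero_or_pos k with rfl | hk
  · rw [djl_zero, SFC.c_l0]
    norm_num
  · have h2 := c_back_mul_le k hk h
    have h3 := abs_nonneg (djl k rho / jl k rho)
    nlinarith [mul_nonneg h0 h3]

theorem c_back_K_le (k : ℕ) (_hk : Even k) (_h2 : 2 ≤ k) (h4 : k ≠ ell) :
    c ell k ell * |Kq k| ≤ 67 / 100 := by
  rw [mul_comm]
  exact back_le k h4

theorem D_abs : |jl ell rho| ≤ 1 / 10 ^ 7 * |djl ell rho| := by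
  have h1 := D_gt
  have h2 := D_lt
  have h3 : |jl ell rho / djl ell rho| ≤ 1 / 10 ^ 7 := by
    rw [abs_le]
    constructor
    · refine le_trans ?_ h1.le
      norm_num
    · refine h2.le.trans ?_
      norm_num
  rwa [abs_div, div_le_iff₀ (abs_pos.2 djl_ell_ne)] at h3

theorem num7 : ∀ j < 479, 367 ≤ j → 957 * SFC.hi j ≤ 2 * 10 ^ 28 := by
  have h := SFC.allS_KtS (fun j h _ => Nat.ble j 366 || Nat.ble (957 * h) (2 * 10 ^ 28))
    (by decide +kernel)
  intro j hj h1
  have h2 := h j hj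
  simp only [Bool.or_eq_true, Nat.ble_eq] at h2
  rcases h2 with h2 | h2
  · omega
  · exact h2

theorem c_back_hi (k : ℕ) (hk : 734 ≤ k) : c ell k ell ≤ 1 / 50 := by
  unfold ell
  by_cases h : 956 < k
  · rw [SFC.c_lk_zero h]; norm_num
  by_cases h2 : Even k
  · obtain ⟨j, rfl⟩ := h2.two_dvd
    have hj : j < 479 := by omega
    rw [SFC.c_lk hj, SFC.bk]
    have h3 := SFC.W_le hj
    have h4 : ((957 * SFC.hi j : ℕ) : ℝ) ≤ ((2 * 10 ^ 28 : ℕ) : ℝ) := by
      exact_mod_cast num7 j hj (by omega)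
    push_cast at h4
    calc 957 * ((SFC.W j : ℚ) : ℝ) ≤ 957 * ((SFC.hi j : ℝ) / 10 ^ 30) := by gcongr
      _ = (957 * SFC.hi j) / 10 ^ 30 := by ring
      _ ≤ (2 * 10 ^ 28) / 10 ^ 30 := div_le_div_of_nonneg_right (by linarith) (by positivity)
      _ = 1 / 50 := by norm_num
  · rw [SFC.c_odd' h2]; norm_num

end SF
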