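import Pool.Agent.H68.SC.Jl
import Pool.Agent.H21.SN.Rho
import Pool.Agent.H27.Leg.Poly
import Pool.Agent.H36.SC.Bes

/-!
# MP_f4af34 (Schiffer's conjecture in `R³` is false): common definitions

`k = 1`, axisymmetric domains symmetric about the equator, coordinates `r = |X|`, `x = X₃ / |X|`.
`ρ` = the 385th zero of `j₁`, `l = 478`.  Contact transform of helper36 (pair form), layer
`[R0, ρ]` of width `w`, cut-off `χ = ((s - R0)₊ / w)³`.

`v0 = 1 - j₀(s)/j₀(ρ)`, `p = v1 = v0'`, `v2 = v0''`, `v3 = v0'''`; `a = 1 - χ v2`, `κ = χ' + χ² v3`.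
Unknowns `y(s, x)`, `z(s, x)`:
`z_s = - y - f1`, `f1 = (κ/2) y²`, `y_s = - 2y/s + z + Lz/s² + f2`, `f2 = N2(s, y, y_s, z, Lz, Γ)`,
`Lz = (1-x²) z_xx - 2x z_x`, `Γ = (1-x²) y_x²`, `z(ρ, x) = 0`.
With `e = χ y`, `r = s + e`, `V = v0 + z + p e - (1/2) a y e`, `A = p - a y`, `W = z_x`:
`V_s = A r_s`, `V_x = W + A r_x`, so `V` is a function `v(r, x)` with `v_r = A`, `v_x = W`, and
`r² r_s (Δv + v - 1) = s² (f2 - N2) = 0`; `v = v_r = v_x = 0` at `s = ρ`, where `r = ρ + y(ρ, x)`.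

Everything above is `Pool.Agent.H36.SC.Contact` (`F2`, `Bg`, `Pair`, `c_pde`).
-/

set_option autoImplicit false

noncomputable section

namespace SF

open Pool.Agent.H68.SC (jl djl)
open Pool.Agent.H27.Leg (P)
open Polynomial (derivative eval)

/-- the radius -/
abbrev rho : ℝ := SN.rho

/-- the width of the layer -/
def wd : ℝ := 1 / 4

/-- the inner radius of the layer -/
def R0 : ℝ := rho - wd

/-- the layer -/
abbrev I0 : Set ℝ := Set.Icc R0 rho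

/-- the resonant mode -/
def ell : ℕ := 478

/-- the weight of the `l¹` norm -/
def nu : ℝ := 1 + 1 / 10 ^ 4

/-- the half width of the domain of `x`; `(nu + 1 / nu) / 2 > 1 + 4 / 10 ^ 9` leaves room -/
def xi : ℝ := 1 + 1 / 10 ^ 12

/-- the domain of `x` -/
abbrev X0 : Set ℝ := Set.Ioo (-xi) xi

/-! ### Cut-off and the radial solution -/

/-- the cut-off and its derivative -/
abbrev chi : ℝ → ℝ := Pool.Agent.H36.SC.cut R0 wd
abbrev chi1 : ℝ → ℝ := Pool.Agent.H36.SC.cut1 R0 wd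

/-- `v0 = 1 - j₀(s)/j₀(ρ)` and its derivatives (for `s > 0`) -/
abbrev v0 : ℝ → ℝ := Pool.Agent.H36.SC.bv0 rho
abbrev v1 : ℝ → ℝ := Pool.Agent.H36.SC.bp rho
abbrev v2 : ℝ → ℝ := Pool.Agent.H36.SC.bq rho
abbrev v3 : ℝ → ℝ := Pool.Agent.H36.SC.bq3 rho

/-- the background: derivatives and differential equations -/
theorem bgd : Pool.Agent.H36.SC.Bg (Set.Ioi 0) v0 v1 v2 v3 chi chi1 :=
  Pool.Agent.H36.SC.bg SN.rho_pos SN.sin_rho R0 wd

/-- `a = 1 - χ v0''` -/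
def aa (s : ℝ) : ℝ := 1 - chi s * v2 s

/-- `κ = χ' + χ² v0'''` -/
def kap (s : ℝ) : ℝ := chi1 s + chi s ^ 2 * v3 s

/-- the nonlinear term of the second equation (`L = Lz`, `G = (1 - x²) y_x²`) -/
def N2 (s y ys z L G : ℝ) : ℝ :=
  Pool.Agent.H36.SC.F2 s (v0 s) (v1 s) (v2 s) (v3 s) (chi s) (chi1 s) y ys z L G

/-! ### Legendre series -/

/-- the sum of a Legendre series and of its derivative -/
def ev (a : ℕ → ℝ) (x : ℝ) : ℝ := ∑' k, a k * (P k).eval x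
def ev1 (a : ℕ → ℝ) (x : ℝ) : ℝ := ∑' k, a k * (derivative (P k)).eval x

/-- `L P_k = - k (k + 1) P_k` -/
def lam (k : ℕ) : ℝ := (k : ℝ) * ((k : ℝ) + 1)

/-- the right side of the second equation, mode `k` -/
def dy (k : ℕ) (s y z f2 : ℝ) : ℝ := - 2 / s * y + (1 - lam k / s ^ 2) * z + f2

/-- Pointwise output of the fixed point: a solution of the transformed equations in the layer,
all modes but `l = 478` being regular inside. Conditions are imposed for all `k` (also odd). -/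
structure Lay (E : ℝ) where
  y : ℕ → ℝ → ℝ
  z : ℕ → ℝ → ℝ
  f1 : ℕ → ℝ → ℝ
  f2 : ℕ → ℝ → ℝ
  /-- bounds -/
  B : ℕ → ℝ
  B_sum : Summable fun k => nu ^ k * B k
  y_le : ∀ k, ∀ s ∈ I0, (1 + k) * |y k s| ≤ B k
  z_le : ∀ k, ∀ s ∈ I0, (1 + k) ^ 2 * |z k s| ≤ B k
  f1_le : ∀ k, ∀ s ∈ I0, |f1 k s| ≤ B k
  f2_le : ∀ k, ∀ s ∈ I0, |f2 k s| ≤ B k
  f1_cont : ∀ k, ContinuousOn (f1 k) I0
  f2_cont : ∀ k, ContinuousOn (f2 k) I0
  /-- the linear system -/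
  z_deriv : ∀ k, ∀ s ∈ I0, HasDerivWithinAt (z k) (- y k s - f1 k s) I0 s
  y_deriv : ∀ k, ∀ s ∈ I0, HasDerivWithinAt (y k) (dy k s (y k s) (z k s) (f2 k s)) I0 s
  z_rho : ∀ k, z k rho = 0
  f1_R0 : ∀ k, f1 k R0 = 0
  f2_R0 : ∀ k, f2 k R0 = 0
  odd : ∀ k, Odd k → ∀ s ∈ I0, y k s = 0 ∧ z k s = 0 ∧ f1 k s = 0 ∧ f2 k s = 0
  amp : y ell rho = E
  reg : ∀ k, Even k → k ≠ ell → y k R0 * jl k R0 + z k R0 * djl k R0 = 0
  /-- the nonlinear equations -/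
  eq1 : ∀ s ∈ I0, ∀ x ∈ X0,
    ev (fun k => f1 k s) x = kap s / 2 * (ev (fun k => y k s) x) ^ 2
  eq2 : ∀ s ∈ I0, ∀ x ∈ X0, ev (fun k => f2 k s) x =
    N2 s (ev (fun k => y k s) x) (ev (fun k => dy k s (y k s) (z k s) (f2 k s)) x)
      (ev (fun k => z k s) x) (- ev (fun k => lam k * z k s) x)
      ((1 - x ^ 2) * (ev1 (fun k => y k s) x) ^ 2)
  /-- smallness: the change of variables is a diffeomorphism -/
  small : ∀ s ∈ I0, ∀ x ∈ X0, |ev (fun k => y k s) x| ≤ 1 / 1000 ∧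
    |ev (fun k => dy k s (y k s) (z k s) (f2 k s)) x| ≤ 1 / 1000

/-- the Wronskian defect of mode `k` at the inner boundary of the layer -/
def Lay.wr {E : ℝ} (S : Lay E) (k : ℕ) : ℝ := S.y k R0 * jl k R0 + S.z k R0 * djl k R0

/-- the boundary of the domain -/
def Lay.R {E : ℝ} (S : Lay E) (x : ℝ) : ℝ := rho + ev (fun k => S.y k rho) x

/-- `Ph k r = ∫_ρ^r t² j_k(t) dt` -/
def Ph (k : ℕ) (r : ℝ) : ℝ := ∫ t in rho..r, t ^ 2 * jl k t

/-- the moment of mode `k` of the boundary `r = ρ + φ(x)`, `φ = ∑ a k P_k` -/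
def Mom (k : ℕ) (a : ℕ → ℝ) : ℝ :=
  ∫ x in (-1 : ℝ)..1, Ph k (rho + ev a x) * (P k).eval x

/-- the interval of amplitudes `E`; `E* = 1.0469 / 10 ^ 4` -/
def E1 : ℝ := 5 / 10 ^ 5
def E2 : ℝ := 16 / 10 ^ 5

abbrev IE : Set ℝ := Set.Icc E1 E2

/-! ### Trivialities -/

theorem rho_gt' : (1211 : ℝ) < rho := by
  have := SN.rho_gt
  unfold rho
  linarith

theorem rho_lt' : rho < (12111 / 10 : ℝ) := by
  have := SN.rho_lt
  unfold rho
  linarith

theorem rho_mem : rho ∈ I0 := by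
  refine ⟨?_, le_rfl⟩
  unfold R0 wd
  linarith

theorem R0_mem : R0 ∈ I0 := by
  refine ⟨le_rfl, ?_⟩
  unfold R0 wd
  linarith

theorem R0_pos : 0 < R0 := by
  have := rho_gt'
  unfold R0 wd
  linarith

theorem R0_lt : R0 < rho := by
  unfold R0 wd
  linarith

theorem one_le_nu_pow (k : ℕ) : 1 ≤ nu ^ k := by
  apply one_le_pow₀
  unfold nu
  norm_num

theorem Lay.B_nonneg {E : ℝ} (S : Lay E) (k : ℕ) : 0 ≤ S.B k :=
  (abs_nonneg _).trans (S.f1_le k rho rho_mem)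

end SF
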