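import Pool.Agent.H94.SF.Defs

/-!
# The family of solutions (output of block FIX).
-/

set_option autoImplicit false

noncomputable section

namespace SF

/-- the family of solutions in the layer -/
structure Fam where
  S : ∀ E : ℝ, E ∈ IE → Lay E
  near : ∀ (E : ℝ) (h : E ∈ IE), ∑' k, (if k = ell then 0 else |(S E h).y k rho|) ≤ 2000 * E ^ 2
  high : ∀ (E : ℝ) (h : E ∈ IE), ∑' k, |(S E h).y (k + 1212) rho| ≤ 50 * E ^ 2
  lip : ∃ C : ℝ, ∀ (E : ℝ) (h : E ∈ IE) (E' : ℝ) (h' : E' ∈ IE),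
    ∑' k, |(S E h).y k rho - (S E' h').y k rho| ≤ C * |E - E'|

end SF
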