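import Pool.Agent.H94.SF.Defs
import Pool.Agent.H50.SF.Eval

/-!
# The nonlinearity in the form of helper50.
-/

set_option autoImplicit false

noncomputable section

namespace SF

theorem N2_eq_N2a (s y ys z L G : ℝ) :
    N2 s y ys z L G = Pool.Agent.H50.SF.N2a (v3 s) (v1 s) (kap s) (chi s) (1 / s) y ys z (L / s ^ 2)
      (G / s ^ 2) (chi s * y) (chi1 s * y + chi s * ys) (chi s * y / s) (aa s * y) := by
  unfold N2 Pool.Agent.H36.SC.F2 Pool.Agent.H50.SF.N2a aa kap
  simp only [smul_eq_mul]
  ring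

end SF
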