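import Pool.Agent.H94.SF.Defs

/-!
# The boundary data (input of block BOOT).
-/

set_option autoImplicit false

namespace SF

/-- the boundary data of the family, `φ_E = ∑ a E k P_k` -/
structure Bdy (a : ℝ → ℕ → ℝ) : Prop where
  summ : ∀ E ∈ IE, Summable fun k => |a E k|
  odd : ∀ E ∈ IE, ∀ k, Odd k → a E k = 0
  amp : ∀ E ∈ IE, a E ell = E
  near : ∀ E ∈ IE, ∑' k, (if k = ell then 0 else |a E k|) ≤ 2000 * E ^ 2
  high : ∀ E ∈ IE, ∑' k, |a E (k + 1212)| ≤ 50 * E ^ 2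
  lip : ∃ C : ℝ, ∀ E ∈ IE, ∀ E' ∈ IE, ∑' k, |a E k - a E' k| ≤ C * |E - E'|
  mom : ∀ E ∈ IE, ∀ k, Even k → k ≠ ell → k ≤ 1210 → Mom k (a E) = 0

end SF
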