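import Pool.Agent.H94.SF.BdyDef
import Pool.Agent.H30.SB.Bs

/-!
# Block BOOT (B6b, B6c): the scalar equation, in the variable `x` alone.
-/

set_option autoImplicit false

namespace SF

theorem boot {a : ℝ → ℕ → ℝ} (h : Bdy a) : ∃ E ∈ IE, Mom ell (a E) = 0 :=
  Pool.Agent.H30.SB.boot' h.summ h.odd h.amp h.near h.high h.lip h.mom

end SF
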