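import Pool.Agent.H94.SF.Defs
import Pool.Agent.H31.SG.Param
import Pool.Agent.H31.SG.Inner
import Pool.Agent.H85.Sch.EndFinal

/-!
# Block END (B4, B7): from the solution in the layer, all modes regular, to the domain.
-/

set_option autoImplicit false

noncomputable section

namespace SF

theorem end_step {E : ℝ} (hE : E ≠ 0) (S : Lay E) (h : ∀ k, Even k → S.wr k = 0) :
    Pool.Agent.H31.SG.NotSchiffer := end_of_inner inner_stmt hE S h

end SF
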