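import Pool.Agent.H94.SF.FamDef
import Pool.Agent.H50.SF.DatI

/-!
# Block FIX (B5, with B2, B3): the family of solutions.
-/

set_option autoImplicit false

namespace SF

theorem fix : Nonempty Fam := Pool.Agent.H50.SF.fix

end SF
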