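import Pool.Agent.H94.SF.Defs
import Pool.Agent.H56.SF.Mom

/-!
# Block MOM (B6a): the moment identity.
-/

set_option autoImplicit false

noncomputable section

namespace SF

theorem mom {E : ℝ} (S : Lay E) (k : ℕ) :
    2 / (2 * (k : ℝ) + 1) * R0 ^ 2 * S.wr k = Mom k (fun k => S.y k rho) :=
  H56.SF.mom S k

end SF
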