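import Pool.Agent.H94.SF.Fix
import Pool.Agent.H94.SF.Momt
import Pool.Agent.H94.SF.Boot
import Pool.Agent.H94.SF.End

/-!
# MP_f4af34: assembly.  `FIX`, `MOM`, `BOOT`, `END` give the failure of the Schiffer property.
-/

set_option autoImplicit false

noncomputable section

namespace SF

theorem Lay.summ {E : ℝ} (S : Lay E) : Summable fun k => |S.y k rho| := by
  refine Summable.of_nonneg_of_le (fun k => abs_nonneg _) (fun k => ?_) S.B_sum
  have h1 := S.y_le k rho rho_mem
  have h2 := S.B_nonneg k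
  have h3 := one_le_nu_pow k
  have h4 : (0 : ℝ) ≤ (k : ℝ) * |S.y k rho| := by positivity
  calc |S.y k rho| ≤ (1 + k) * |S.y k rho| := by linarith
    _ ≤ S.B k := h1
    _ ≤ nu ^ k * S.B k := by nlinarith

open Classical in
/-- the boundary data of the family -/
def bd (F : Fam) (E : ℝ) (k : ℕ) : ℝ := if h : E ∈ IE then (F.S E h).y k rho else 0

theorem bd_eq (F : Fam) {E : ℝ} (h : E ∈ IE) : bd F E = fun k => (F.S E h).y k rho := by
  funext k
  unfold bd
  rw [dif_pos h]

theorem Fam.bdy (F : Fam) : Bdy (bd F) where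
  summ E h := by
    rw [bd_eq F h]
    exact (F.S E h).summ
  odd E h k hk := by
    rw [bd_eq F h]
    exact ((F.S E h).odd k hk rho rho_mem).1
  amp E h := by
    rw [bd_eq F h]
    exact (F.S E h).amp
  near E h := by
    rw [bd_eq F h]
    exact F.near E h
  high E h := by
    rw [bd_eq F h]
    exact F.high E h
  lip := by
    obtain ⟨C, hC⟩ := F.lip
    refine ⟨C, fun E h E' h' => ?_⟩
    rw [bd_eq F h, bd_eq F h']
    exact hC E h E' h'
  mom E h k hk hk2 _ := by
    rw [bd_eq F h, ← mom (F.S E h) k]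
    have : (F.S E h).wr k = 0 := (F.S E h).reg k hk hk2
    rw [this, mul_zero]

/-- the main theorem -/
theorem main : Pool.Agent.H31.SG.NotSchiffer := by
  obtain ⟨F⟩ := fix
  obtain ⟨E, hE, h0⟩ := boot F.bdy
  have hE0 : E ≠ 0 := by
    have h1 : E1 ≤ E := hE.1
    have h2 : (0 : ℝ) < E1 := by
      unfold E1
      norm_num
    exact (h2.trans_le h1).ne'
  refine end_step hE0 (F.S E hE) (fun k hk => ?_)
  by_cases h : k = ell
  · subst h
    have h1 := mom (F.S E hE) ell
    rw [← bd_eq F hE, h0] at h1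
    have h2 : (0 : ℝ) < 2 / (2 * (ell : ℝ) + 1) * R0 ^ 2 := by
      have := R0_pos
      positivity
    exact (mul_eq_zero.1 h1).resolve_left h2.ne'
  · exact (F.S E hE).reg k hk h

end SF
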